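import Mathlib
import Pool.Agent.H99.Bern2

set_option autoImplicit false

open Set

namespace Pool.Agent.Results.MP_977360_an.Norm

/-- The Bernstein space: entire functions of exponential type at most `σ` that are bounded on
the real line. -/
def B (σ : ℝ) : Set (ℂ → ℂ) :=
  {f | Differentiable ℂ f ∧ (∀ ε > 0, ∃ C : ℝ, ∀ z, ‖f z‖ ≤ C * Real.exp ((σ + ε) * ‖z‖)) ∧
    ∃ M : ℝ, ∀ x : ℝ, ‖f x‖ ≤ M}

/-- The values `|-f''(x) + l f(x)|` for real `x` and `f` in the closed unit ball of `B σ` for the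
uniform norm on the real line. Their supremum is the operator norm of `y ↦ -y'' + l y`. -/
def vals (σ : ℝ) (l : ℂ) : Set ℝ :=
  {r | ∃ f ∈ B σ, (∀ y : ℝ, ‖f y‖ ≤ 1) ∧ ∃ x : ℝ, r = ‖-deriv (deriv f) x + l * f x‖}

theorem result (σ : ℝ) (hσ : 0 < σ) (l : ℂ) :
    ∃ N : ℝ, IsGreatest (vals σ l) N ∧
      IsGreatest ((fun α => l.re * Real.cos α + |l.im| * Real.sin α + σ ^ 2 * Real.sinc α) ''
        Icc 0 Real.pi) N := by
  have hc : Continuous fun α => l.re * Real.cos α + |l.im| * Real.sin α + σ ^ 2 * Real.sinc α := by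
    have := Real.continuous_sinc
    fun_prop
  obtain ⟨α, hα, hm⟩ := (isCompact_Icc (a := 0) (b := Real.pi)).exists_isMaxOn
    ⟨0, le_rfl, Real.pi_pos.le⟩ hc.continuousOn
  have up : l.re * Real.cos α + |l.im| * Real.sin α + σ ^ 2 * Real.sinc α ∈
      upperBounds (vals σ l) := by
    rintro r ⟨f, ⟨hf, ht, -⟩, hb, x, rfl⟩
    exact H99.Bern.upper hσ l hf ht hb (fun β hβ => hm hβ) x
  refine ⟨_, ⟨?_, up⟩, ⟨α, hα, rfl⟩, ?_⟩
  · obtain ⟨f, hf, ht, hb, h⟩ := H99.Bern.extremal hσ l hα.1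
    exact ⟨f, ⟨hf, ht, 1, hb⟩, hb, 0, le_antisymm h (up ⟨f, ⟨hf, ht, 1, hb⟩, hb, 0, rfl⟩)⟩
  · rintro r ⟨β, hβ, rfl⟩
    exact hm hβ

end Pool.Agent.Results.MP_977360_an.Norm
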